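import Pool.Agent.Q191.CZ.Finite

/-!
# MP_79262d_an, Q1: yes for infinite `X`, no for a one-point space

Part 1: `D` simple unital C*-algebra, `X` an infinite compact metric space, `G` a group acting
minimally on `X`, `α` a family of automorphisms of `C(X, D)` over the action with a pseudoperiodic
set of fibre automorphisms, `(π, u)` a covariant representation in a unital C*-algebra `B`
(for example the reduced crossed product). Then below every nonzero positive `a` in `C(X, D)` there
is a nonzero nonnegative function `f` in `C(X)`, with respect to Cuntz subequivalence in `B`.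

Part 2: for the trivial group acting on a one-point space (where the crossed product is `C(X, D)`)
this fails for some simple `D`.
-/

set_option autoImplicit false

open Pool.Agent.Q191.CZ

namespace Pool.Agent.Results.MP_79262d_an.CrossedProduct

universe v1 v2 v3 v4

/-- The answer to Q1: yes if `X` is infinite (without essential freeness), no for a one-point
space. -/
theorem result :
    (∀ (X : Type v1) (D : Type v2) (G : Type v3) (B : Type v4) [MetricSpace X] [CompactSpace X]
      [Infinite X] [CStarAlgebra D] [PartialOrder D] [StarOrderedRing D] [IsSimpleRing D]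
      [Group G] [MulAction G X] [ContinuousConstSMul G X] [CStarAlgebra B]
      (al : G → X → (D ≃⋆ₐ[ℂ] D)) (α : G → (C(X, D) ≃⋆ₐ[ℂ] C(X, D)))
      (π : C(X, D) →⋆ₐ[ℂ] B) (u : G →* unitary B),
      MinimalAction G X → PseudoGen al → LiesOver al α → Covariant α π u →
      ∀ a : C(X, D), (∀ x, 0 ≤ a x) → a ≠ 0 → FunctionBelow (fun y => π y) a) ∧
    (∃ (D : Type) (_ : CStarAlgebra D) (_ : PartialOrder D) (_ : StarOrderedRing D)
      (_ : IsSimpleRing D) (a : C(PUnit.{1}, D)),
      (∀ x, 0 ≤ a x) ∧ a ≠ 0 ∧ ¬ FunctionBelow (fun y => y) a) := by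
  refine ⟨fun X D G B _ _ _ _ _ _ _ _ _ _ _ al α π u hmin hps hα hcov a ha hne =>
    main hmin al hps α hα π u hcov a ha hne, ?_⟩
  obtain ⟨D, i1, i2, i3, i4, a, h1, h2, h3⟩ := one_point
  exact ⟨D, i1, i2, i3, i4, a, h1, h2, fun ⟨f, hf1, hf2, hf3⟩ => h3 f hf1 hf2 hf3⟩

end Pool.Agent.Results.MP_79262d_an.CrossedProduct
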